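import Pool.Agent.R815.Urn.Super
import Pool.Agent.R815.Urn.Process
import Pool.Agent.R815.Urn.Exist

/-!
# Coexistence of four types in the competing urn scheme on the 4-dimensional hypercube
-/

namespace Pool.Agent.Results.MP_d3f74f_pr.CoexistenceQ4

open Finset MeasureTheory ProbabilityTheory Pool.Agent.R815.Urn

/-- The initial configuration: for each `w` in `{0,1}^3` of even parity, the two urns `(w,0)` and
`(w,1)` hold `10^8` balls of the type of `w`; the other eight urns are empty. -/
def start (v : Fin 4 → Bool) : Urn 4 :=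
  if (xor (xor (v 0) (v 1)) (v 2)) = false then
    ((if v 0 then (if v 1 then 3 else 2) else (if v 1 then 1 else 0)), 100000000)
  else (0, 0)

lemma start_d (e : Fin 4) (b : Bool) : start (vert (false, e, b)) = (e, 100000000) := by
  fin_cases e <;> cases b <;> rfl

lemma start_s (f : Fin 4) (b : Bool) : start (vert (true, f, b)) = (0, 0) := by
  fin_cases f <;> cases b <;> rfl

lemma lab_start : Lab start := by
  intro e b
  unfold dU
  rw [start_d]

lemma nn_start (e : Fin 4) (b : Bool) : nn start e b = 100000000 := by
  unfold nn dU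
  rw [start_d]
  norm_num

lemma MM_start : MM start = 800000000 := by
  unfold MM
  simp only [nn_start]
  simp
  norm_num

lemma FF_start : FF start ≤ 1 / 25088 := by
  have hZ : ZZ start = 0 := by
    unfold ZZ aa
    rw [MM_start]
    simp only [nn_start]
    norm_num
  have hQ : QQ start = 0 := by
    unfold QQ dd
    simp only [nn_start]
    norm_num
  have hT : TH start = 8 := by
    unfold TH sU
    simp only [start_s]
    norm_num
  unfold FF
  rw [if_pos lab_start, MM_start, hZ, hQ, hT]
  unfold fl
  norm_num

lemma total_pos_of_lt (x : Cfg) (h : FF x < 1 / 12544) : 0 < total x := by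
  have hR := reg_of_lt h
  have h1 : (0 : ℝ) < (total x : ℝ) := by
    rw [total_eq]
    have := hR.M_big
    have := CC_nonneg x
    linarith
  exact_mod_cast h1

lemma present_of_lt (x : Cfg) (h : FF x < 1 / 12544) (j : Fin 4) : Present j x := by
  have hR := reg_of_lt h
  refine ⟨vert (false, j, false), hR.lab j false, ?_⟩
  have h1 := hR.n_low j false
  have h2 := hR.M_big
  have h3 : (0 : ℝ) < nn x j false := by linarith
  unfold nn dU at h3
  exact_mod_cast h3

/-- On the 4-dimensional hypercube there is a nonzero initial configuration with balls of four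
types for which, with probability at least 1/2, all four types are present at all times. -/
theorem result :
    ∃ x0 : (Fin 4 → Bool) → Urn 4, total x0 ≠ 0 ∧
      (∃ (Ω : Type) (_ : MeasurableSpace Ω) (μ : Measure Ω) (_ : IsProbabilityMeasure μ)
        (v : ℕ → Ω → (Fin 4 → Bool)) (e : ℕ → Ω → ℝ), IsUrnScheme (hypercube 4) x0 μ v e) ∧
      ∀ (Ω : Type) [MeasurableSpace Ω] (μ : Measure Ω) [IsProbabilityMeasure μ]
        (v : ℕ → Ω → (Fin 4 → Bool)) (e : ℕ → Ω → ℝ),
        IsUrnScheme (hypercube 4) x0 μ v e →
        1 / 2 ≤ μ {ω |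
          StrictMono (jumpTime (hypercube 4) x0 (fun m => v m ω) (fun m => e m ω)) ∧
          ∀ t : ℝ, 0 ≤ t → ∃ n : ℕ,
            jumpTime (hypercube 4) x0 (fun m => v m ω) (fun m => e m ω) n ≤ t ∧
            t < jumpTime (hypercube 4) x0 (fun m => v m ω) (fun m => e m ω) (n + 1) ∧
            ∀ j : Fin 4, Present j (conf (hypercube 4) x0 (fun m => v m ω) n)} := by
  have hs0 : 0 < total start := by
    apply total_pos_of_lt
    have := FF_start
    linarith
  refine ⟨start, hs0.ne', exists_scheme (hypercube 4) start hs0.ne', ?_⟩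
  intro Ω _ μ _ v e h
  have h1 := lyap (hypercube 4) start h FF (1 / 12544) (by norm_num) FF_nonneg
    total_pos_of_lt (fun x hx => super hx)
  have h2 : (1 / 2 : ENNReal) ≤ ENNReal.ofReal (1 - FF start / (1 / 12544)) := by
    have h3 : (1 / 2 : ℝ) ≤ 1 - FF start / (1 / 12544) := by
      have := FF_start
      have e1 : FF start / (1 / 12544) = FF start * 12544 := by ring
      rw [e1]
      linarith
    have h4 := ENNReal.ofReal_le_ofReal h3
    refine le_trans ?_ h4
    rw [ENNReal.ofReal_div_of_pos (by norm_num)]
    simp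
  refine (h2.trans h1).trans ?_
  have h5 := nonexplosion (hypercube 4) start h hs0
  apply measure_mono_ae
  filter_upwards [h5] with ω hω
  intro hk
  have hk' : ∀ k, FF (conf (hypercube 4) start (fun m => v m ω) k) < 1 / 12544 := hk
  obtain ⟨h6, h7⟩ := hω (fun k => total_pos_of_lt _ (hk' k))
  refine ⟨h6, ?_⟩
  intro t ht
  obtain ⟨n, hn1, hn2⟩ := h7 t ht
  exact ⟨n, hn1, hn2, fun j => present_of_lt _ (hk' n) j⟩

end Pool.Agent.Results.MP_d3f74f_pr.CoexistenceQ4
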